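import Pool.Agent.K3h56.E2.Stm3

/-!
# Brick VAL (helper64, for helper56): the orders of the `A`-units
-/

set_option autoImplicit false

open NumberField IsDedekindDomain Filter Topology nonZeroDivisors

noncomputable section

namespace Pool.Agent.K3h64.E2

open Pool.Agent.K3h30.RS Pool.Agent.K3h56.E2 FractionalIdeal

variable {K : Type} [Field K] [NumberField K]

/-- The order of `x` at `v`. -/
def od (v : HeightOneSpectrum (𝓞 K)) (x : Kˣ) : ℤ :=
  -Multiplicative.toAdd (v.valuationOfNeZero (K := K) x)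

theorem od_mul (v : HeightOneSpectrum (𝓞 K)) (x y : Kˣ) : od v (x * y) = od v x + od v y := by
  unfold od
  rw [map_mul, toAdd_mul, neg_add]

theorem od_one (v : HeightOneSpectrum (𝓞 K)) : od v (1 : Kˣ) = 0 := by
  unfold od
  rw [map_one, toAdd_one, neg_zero]

theorem val_eq (v : HeightOneSpectrum (𝓞 K)) (x : Kˣ) :
    v.valuation K (x : K) = WithZero.exp (-od v x) := by
  unfold od
  rw [neg_neg, ← HeightOneSpectrum.valuationOfNeZero_eq]
  rfl

theorem val_eq_one_iff (v : HeightOneSpectrum (𝓞 K)) (x : Kˣ) :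
    v.valuation K (x : K) = 1 ↔ od v x = 0 := by
  rw [val_eq, ← WithZero.exp_zero, WithZero.exp_inj, neg_eq_zero]

theorem log_av (v : HeightOneSpectrum (𝓞 K)) (x : Kˣ) :
    Real.log (av (Sum.inr v) (x : K)) = -((od v x : ℤ) : ℝ) * Real.log (Ideal.absNorm v.asIdeal) := by
  have h0 : v.valuation K (x : K) ≠ 0 := by
    rw [val_eq]; exact WithZero.exp_ne_zero
  show Real.log (HeightOneSpectrum.adicAbv K v (x : K)) = _
  rw [HeightOneSpectrum.adicAbv_def, WithZeroMulInt.toNNReal_neg_apply _ h0]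
  have h1 : WithZero.unzero h0 = Multiplicative.ofAdd (-od v x) := by
    rw [← WithZero.coe_inj, WithZero.coe_unzero, val_eq]
    rfl
  rw [h1, toAdd_ofAdd, NNReal.coe_zpow, Real.log_zpow]
  push_cast
  rfl

theorem count_eq (v : HeightOneSpectrum (𝓞 K)) (x : Kˣ) :
    count K v (spanSingleton (𝓞 K)⁰ (x : K)) = od v x := by
  classical
  obtain ⟨n, d, hnd⟩ := IsLocalization.exists_mk'_eq (𝓞 K)⁰ (x : K)
  have hn0 : n ≠ 0 := by
    rintro rfl
    apply x.ne_zero
    rw [← hnd, IsLocalization.mk'_zero]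
  have hd0 : (d : 𝓞 K) ≠ 0 := nonZeroDivisors.coe_ne_zero d
  have hI : spanSingleton (𝓞 K)⁰ (x : K) ≠ 0 := by
    rw [spanSingleton_ne_zero_iff]; exact x.ne_zero
  have hJ : spanSingleton (𝓞 K)⁰ (x : K) = spanSingleton (𝓞 K)⁰ ((algebraMap (𝓞 K) K) d)⁻¹ *
      ↑(Ideal.span {n} : Ideal (𝓞 K)) := by
    rw [coeIdeal_span_singleton, spanSingleton_mul_spanSingleton, ← hnd]
    apply congr_arg
    rw [IsFractionRing.mk'_eq_div, div_eq_mul_inv, mul_comm]
  have h1 := count_well_defined K v hI hJ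
  have h2 : v.valuation K (x : K) = v.intValuation n / v.intValuation (d : 𝓞 K) := by
    rw [← hnd, HeightOneSpectrum.valuation_of_mk']
  rw [val_eq, v.intValuation_if_neg hn0, v.intValuation_if_neg hd0, ← WithZero.exp_sub,
    WithZero.exp_inj] at h2
  rw [h1]
  linarith

theorem count_prodA (A : Finset (HeightOneSpectrum (𝓞 K))) (n : A → ℤ)
    (v : HeightOneSpectrum (𝓞 K)) :
    count K v (∏ P : A, (P.1.asIdeal : FractionalIdeal (𝓞 K)⁰ K) ^ n P) =
      ∑ P : A, (by classical exact if P.1 = v then n P else 0) := by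
  classical
  rw [count_prod K v]
  · refine Finset.sum_congr rfl fun P _ => ?_
    rw [count_zpow, count_maximal K v P.1]
    split_ifs <;> simp
  · intro P _
    exact zpow_ne_zero _ (coeIdeal_ne_zero.mpr P.1.ne_bot)

theorem eq_of_count {I J : FractionalIdeal (𝓞 K)⁰ K} (hI : I ≠ 0) (hJ : J ≠ 0)
    (h : ∀ v : HeightOneSpectrum (𝓞 K), count K v I = count K v J) : I = J := by
  rw [← finprod_heightOneSpectrum_factorization' K hI,
    ← finprod_heightOneSpectrum_factorization' K hJ]
  exact finprod_congr fun v => by rw [h v]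

/-- The orders at the elements of `A`. -/
def ordA (A : Finset (HeightOneSpectrum (𝓞 K))) : Kˣ →* Multiplicative (A → ℤ) where
  toFun x := Multiplicative.ofAdd fun P => od P.1 x
  map_one' := by
    rw [← ofAdd_zero]
    congr 1
    funext P
    exact od_one P.1
  map_mul' x y := by
    rw [← ofAdd_add]
    congr 1
    funext P
    exact od_mul P.1 x y

/-- The class of a divisor. -/
def Psi (A : Finset (HeightOneSpectrum (𝓞 K))) : Multiplicative (A → ℤ) →* ClassGroup (𝓞 K) where
  toFun n := ∏ P : A, cls P.1 ^ (Multiplicative.toAdd n P)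
  map_one' := by simp
  map_mul' n n' := by
    rw [← Finset.prod_mul_distrib]
    refine Finset.prod_congr rfl fun P _ => ?_
    rw [toAdd_mul, Pi.add_apply, zpow_add]

theorem Psi_eq_one (A : Finset (HeightOneSpectrum (𝓞 K))) (n : Multiplicative (A → ℤ)) :
    Psi A n = 1 ↔ ∃ x : Kˣ, spanSingleton (𝓞 K)⁰ (x : K) =
      ∏ P : A, (P.1.asIdeal : FractionalIdeal (𝓞 K)⁰ K) ^ (Multiplicative.toAdd n P) := by
  have h1 : ClassGroup.equiv K (Psi A n) = QuotientGroup.mk' (toPrincipalIdeal (𝓞 K) K).range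
      (∏ P : A, (FractionalIdeal.mk0 K ⟨P.1.asIdeal,
        mem_nonZeroDivisors_of_ne_zero P.1.ne_bot⟩) ^ (Multiplicative.toAdd n P)) := by
    show ClassGroup.equiv K (∏ P : A, cls P.1 ^ (Multiplicative.toAdd n P)) = _
    rw [map_prod, map_prod]
    refine Finset.prod_congr rfl fun P _ => ?_
    rw [map_zpow, map_zpow, cls, ClassGroup.equiv_mk0]
  rw [← (ClassGroup.equiv K).map_eq_one_iff, h1, QuotientGroup.mk'_apply,
    QuotientGroup.eq_one_iff, MonoidHom.mem_range]
  refine exists_congr fun x => ?_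
  rw [toPrincipalIdeal_eq_iff, Units.coe_prod]
  refine Eq.congr_right (Finset.prod_congr rfl fun P _ => ?_)
  rw [Units.val_zpow_eq_zpow_val, FractionalIdeal.coe_mk0]

theorem ker_Psi (A : Finset (HeightOneSpectrum (𝓞 K))) :
    (Psi A).ker = (SU K A).map (ordA A) := by
  classical
  ext n
  rw [MonoidHom.mem_ker, Psi_eq_one, Subgroup.mem_map]
  have hsum : ∀ (v : HeightOneSpectrum (𝓞 K)), v ∉ A →
      ∑ P : A, (if P.1 = v then Multiplicative.toAdd n P else 0) = 0 := by
    intro v hv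
    refine Finset.sum_eq_zero fun P _ => if_neg ?_
    rintro rfl
    exact hv P.2
  have hsum' : ∀ (v : A),
      ∑ P : A, (if P.1 = v.1 then Multiplicative.toAdd n P else 0) = Multiplicative.toAdd n v := by
    intro v
    rw [Finset.sum_eq_single v]
    · rw [if_pos rfl]
    · intro P _ hP
      exact if_neg fun h => hP (Subtype.ext h)
    · intro h; exact absurd (Finset.mem_univ _) h
  have hcnt := count_prodA A (Multiplicative.toAdd n)
  constructor
  · rintro ⟨x, hx⟩
    refine ⟨x, fun w hw => ?_, ?_⟩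
    · rw [val_eq_one_iff, ← count_eq, hx, hcnt]
      exact hsum w hw
    · show Multiplicative.ofAdd (fun P : A => od P.1 x) = n
      rw [← ofAdd_toAdd n]
      congr 1
      funext v
      rw [← count_eq, hx, hcnt]
      exact hsum' v
  · rintro ⟨x, hx, rfl⟩
    refine ⟨x, eq_of_count ?_ ?_ fun v => ?_⟩
    · rw [spanSingleton_ne_zero_iff]; exact x.ne_zero
    · rw [Finset.prod_ne_zero_iff]
      intro P _
      exact zpow_ne_zero _ (coeIdeal_ne_zero.mpr P.1.ne_bot)
    · rw [count_eq, hcnt]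
      by_cases hv : v ∈ A
      · exact (hsum' ⟨v, hv⟩).symm
      · rw [hsum v hv, ← val_eq_one_iff]
        exact hx v hv

theorem range_Psi (A : Finset (HeightOneSpectrum (𝓞 K))) :
    (Psi A).range = CA (A : Set (HeightOneSpectrum (𝓞 K))) := by
  classical
  apply le_antisymm
  · rintro _ ⟨n, rfl⟩
    refine Subgroup.prod_mem _ fun P _ => Subgroup.zpow_mem _ ?_ _
    exact Subgroup.subset_closure ⟨P.1, P.2, rfl⟩
  · rw [CA, Subgroup.closure_le]
    rintro _ ⟨P, hP, rfl⟩
    refine ⟨Multiplicative.ofAdd (Pi.single ⟨P, hP⟩ 1), ?_⟩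
    show ∏ Q : A, cls Q.1 ^ ((Pi.single (⟨P, hP⟩ : A) (1 : ℤ) : A → ℤ) Q) = cls P
    rw [Finset.prod_eq_single (⟨P, hP⟩ : A)]
    · rw [Pi.single_eq_same, zpow_one]
    · intro Q _ hQ
      rw [Pi.single_eq_of_ne hQ, zpow_zero]
    · intro h; exact absurd (Finset.mem_univ _) h

theorem t_VAL : S_VAL := by
  intro K _ _ A
  refine ⟨ordA A, fun x P => log_av P.1 x, ?_, fun x hx => ⟨fun h => ?_, ?_⟩⟩
  · rw [← ker_Psi, Subgroup.index_ker, range_Psi]
  · have hv : ∀ v : HeightOneSpectrum (𝓞 K), v.valuation K (x : K) = 1 := by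
      intro v
      by_cases hv : v ∈ A
      · rw [val_eq_one_iff]
        have h2 : (fun P : A => od P.1 x) = 0 := h
        exact congrFun h2 ⟨v, hv⟩
      · exact hx v hv
    have hv' : ∀ v : HeightOneSpectrum (𝓞 K), v.valuation K ((x⁻¹ : Kˣ) : K) = 1 := by
      intro v
      rw [Units.val_inv_eq_inv_val, map_inv₀, hv v, inv_one]
    obtain ⟨a, ha⟩ := HeightOneSpectrum.mem_integers_of_valuation_le_one K (x : K)
      fun v => (hv v).le
    obtain ⟨b, hb⟩ := HeightOneSpectrum.mem_integers_of_valuation_le_one K ((x⁻¹ : Kˣ) : K)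
      fun v => (hv' v).le
    have hab : a * b = 1 := by
      apply FaithfulSMul.algebraMap_injective (𝓞 K) K
      rw [map_mul, ha, hb, map_one, Units.mul_inv]
    exact ⟨⟨a, b, hab, by rw [mul_comm]; exact hab⟩, ha.symm⟩
  · rintro ⟨ε, hε⟩
    have h1 : x = Units.map (algebraMap (𝓞 K) K : 𝓞 K →* K) ε := Units.ext hε
    show Multiplicative.ofAdd (fun P : A => od P.1 x) = 1
    rw [← ofAdd_zero]
    congr 1
    funext P
    show od P.1 x = 0
    rw [od, h1, HeightOneSpectrum.valuation_of_unit_eq, toAdd_one, neg_zero]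

end Pool.Agent.K3h64.E2
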